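import Pool.Agent.N273.BR.Stm

/-!
# BR/DIV: the divergent series
-/

set_option autoImplicit false

open Filter Set
open scoped Topology

namespace Pool.Agent.N618.BR

open Pool.Agent.N273.BR

/-- (the same as `Pool.Agent.N417.SM.ser_div`) -/
lemma ser_div : ¬ Summable (fun n : ℕ => 1 / ((n : ℝ) * Real.log ((n : ℝ) + 1))) := by
  rw [← summable_condensed_iff_of_nonneg]
  · intro h
    have h1 : Summable (fun k : ℕ => 1 / ((k : ℝ) + 1)) := by
      have h2 : Summable (fun k : ℕ => Real.log 2 * ((2 : ℝ) ^ k * (1 / (((2 ^ k : ℕ) : ℝ) * Real.log (((2 ^ k : ℕ) : ℝ) + 1))))) :=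
        h.mul_left _
      refine Summable.of_nonneg_of_le (fun k => by positivity) (fun k => ?_) h2
      have hl2 : 0 < Real.log 2 := Real.log_pos (by norm_num)
      have h3 : Real.log (((2 ^ k : ℕ) : ℝ) + 1) ≤ ((k : ℝ) + 1) * Real.log 2 := by
        have e : ((k : ℝ) + 1) * Real.log 2 = Real.log ((2 : ℝ) ^ (k + 1)) := by
          rw [Real.log_pow]
          push_cast
          ring
        rw [e]
        apply Real.log_le_log (by positivity)
        push_cast
        rw [pow_succ]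
        have : (1 : ℝ) ≤ 2 ^ k := one_le_pow₀ (by norm_num)
        linarith
      have h4 : 0 < Real.log (((2 ^ k : ℕ) : ℝ) + 1) := Real.log_pos (by
        push_cast
        have : (0 : ℝ) < 2 ^ k := by positivity
        linarith)
      have e : Real.log 2 * ((2 : ℝ) ^ k * (1 / (((2 ^ k : ℕ) : ℝ) * Real.log (((2 ^ k : ℕ) : ℝ) + 1)))) =
          Real.log 2 / Real.log (((2 ^ k : ℕ) : ℝ) + 1) := by
        push_cast
        have : (2 : ℝ) ^ k ≠ 0 := by positivity
        push_cast at h4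
        field_simp
      rw [e, div_le_div_iff₀ (by positivity) h4]
      linarith
    have h5 := (summable_nat_add_iff (f := fun k : ℕ => 1 / (k : ℝ)) 1).1 (by
      refine h1.congr fun k => ?_
      push_cast
      rfl)
    exact Real.not_summable_one_div_natCast h5
  · intro n
    have : 0 ≤ Real.log ((n : ℝ) + 1) := Real.log_nonneg (by have : (0 : ℝ) ≤ n := Nat.cast_nonneg n; linarith)
    positivity
  · intro m n hm hmn
    have hm' : (0 : ℝ) < m := by exact_mod_cast hm
    have hmn' : (m : ℝ) ≤ n := by exact_mod_cast hmn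
    have h1 : 0 < Real.log ((m : ℝ) + 1) := Real.log_pos (by linarith)
    have h2 : Real.log ((m : ℝ) + 1) ≤ Real.log ((n : ℝ) + 1) := Real.log_le_log (by linarith) (by linarith)
    apply one_div_le_one_div_of_le (by positivity)
    exact mul_le_mul hmn' h2 (by positivity) (by linarith)

/-! ## the explicit threshold -/

/-- `exp (- x - x²) ≤ 1 - x` -/
lemma exp_le {x : ℝ} (h0 : 0 ≤ x) (h1 : x ≤ 1 / 3) : Real.exp (-(x * (1 + x))) ≤ 1 - x := by
  have h2 : 0 ≤ x * (1 + x) := by positivity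
  have h3 := Real.quadratic_le_exp_of_nonneg h2
  have h4 : 1 ≤ (1 - x) * Real.exp (x * (1 + x)) := by
    have h5 : 1 ≤ (1 - x) * (1 + x * (1 + x) + (x * (1 + x)) ^ 2 / 2) := by
      have h6 : 0 ≤ x ^ 2 * (1 / 3 - x) := mul_nonneg (sq_nonneg x) (by linarith)
      have h7 : 0 ≤ x ^ 3 * (1 / 3 - x) := mul_nonneg (by positivity) (by linarith)
      have h8 : 0 ≤ x ^ 4 * (1 / 3 - x) := mul_nonneg (by positivity) (by linarith)
      have h9 : 0 ≤ x ^ 3 := by positivity
      have h10 : 0 ≤ x ^ 4 := by positivity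
      nlinarith
    have h6 : (1 - x) * (1 + x * (1 + x) + (x * (1 + x)) ^ 2 / 2) ≤ (1 - x) * Real.exp (x * (1 + x)) :=
      mul_le_mul_of_nonneg_left h3 (by linarith)
    linarith
  have h5 : 0 < Real.exp (x * (1 + x)) := Real.exp_pos _
  rw [Real.exp_neg, inv_le_iff_one_le_mul₀ h5]
  exact h4

/-- **DIV** the divergent series. -/
theorem div_ : Pool.Agent.N273.BR.DIV := by
  intro a b ha hb0 hb
  have hw0 : ∀ k, 0 ≤ wt b k := fun k =>
    Finset.prod_nonneg fun i _ => sub_nonneg.2 (min_le_left _ _)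
  have hf0 : ∀ k : ℕ, 0 ≤ wt b k * (min 1 (max 0 (a * LL k))) ^ 2 :=
    fun k => mul_nonneg (hw0 k) (sq_nonneg _)
  rw [← not_summable_iff_tendsto_nat_atTop_of_nonneg hf0]
  intro hcon
  apply ser_div
  refine Summable.of_norm_bounded_eventually_nat (hcon.mul_left (2 / a ^ 2)) ?_
  have hz : Tendsto (fun k : ℕ => 4 * b * (Real.log ((k : ℝ) + 1) / ((k : ℝ) + 1))) atTop (𝓝 0) := by
    have h1 : Tendsto (fun x : ℝ => Real.log x / x) atTop (𝓝 0) :=
      Real.isLittleO_log_id_atTop.tendsto_div_nhds_zero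
    have h2 : Tendsto (fun k : ℕ => (k : ℝ) + 1) atTop atTop :=
      tendsto_atTop_add_const_right _ _ tendsto_natCast_atTop_atTop
    simpa using (h1.comp h2).const_mul (4 * b)
  have hl : Tendsto (fun k : ℕ => Real.log k / (k : ℝ) ^ (1 / 2 : ℝ)) atTop (𝓝 0) := by
    have h1 : Tendsto (fun x : ℝ => Real.log x / x ^ (1 / 2 : ℝ)) atTop (𝓝 0) :=
      (isLittleO_log_rpow_atTop (by norm_num : (0 : ℝ) < 1 / 2)).tendsto_div_nhds_zero
    exact h1.comp tendsto_natCast_atTop_atTop
  have hm : 0 < min (1 / 3 : ℝ) (1 - 2 * b) := lt_min (by norm_num) (by linarith)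
  filter_upwards [hz.eventually (gt_mem_nhds hm), hl.eventually (gt_mem_nhds (show 0 < 1 / a by positivity)),
    eventually_ge_atTop 16] with k hk1 hk2 hk3
  have hk16 : (16 : ℝ) ≤ k := by exact_mod_cast hk3
  have hk0 : (0 : ℝ) < k := by linarith
  have hs0 : 0 < √(k : ℝ) := Real.sqrt_pos.2 hk0
  have hlog16 : Real.exp 1 ≤ Real.log 16 := by
    have h1 : Real.log 16 = 4 * Real.log 2 := by
      rw [show (16 : ℝ) = 2 ^ 4 by norm_num, Real.log_pow]
      push_cast; ring
    have := Real.exp_one_lt_d9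
    have := Real.log_two_gt_d9
    linarith
  have hlogk : Real.exp 1 ≤ Real.log k := hlog16.trans (Real.log_le_log (by norm_num) hk16)
  have hlogk0 : 0 < Real.log k := (Real.exp_pos 1).trans_le hlogk
  have hll : 1 ≤ Real.log (Real.log k) := (Real.le_log_iff_exp_le hlogk0).2 hlogk
  have hk1' : 0 < Real.log ((k : ℝ) + 1) := Real.log_pos (by linarith)
  -- the second factor
  have hLL : LL k = Real.log (Real.log k) / √(k : ℝ) := rfl
  have hLL0 : 0 ≤ a * LL k := by rw [hLL]; positivity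
  have hLL1 : a * LL k ≤ 1 := by
    have h1 : Real.log (Real.log k) ≤ Real.log k := by
      have := Real.log_le_sub_one_of_pos hlogk0
      linarith
    have h2 : LL k ≤ Real.log k / (k : ℝ) ^ (1 / 2 : ℝ) := by
      rw [hLL, ← Real.sqrt_eq_rpow]
      exact div_le_div_of_nonneg_right h1 hs0.le
    have h3 : LL k ≤ 1 / a := h2.trans hk2.le
    calc a * LL k ≤ a * (1 / a) := mul_le_mul_of_nonneg_left h3 ha.le
      _ = 1 := by field_simp
  have hsec : a ^ 2 / k ≤ (min 1 (max 0 (a * LL k))) ^ 2 := by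
    rw [max_eq_right hLL0, min_eq_right hLL1, mul_pow, hLL, div_pow, Real.sq_sqrt hk0.le, div_eq_mul_one_div]
    refine mul_le_mul_of_nonneg_left ?_ (sq_nonneg a)
    refine div_le_div_of_nonneg_right ?_ hk0.le
    nlinarith
  -- the first factor
  set L : ℝ := Real.log (Real.log (((k : ℝ) + 1) ^ 2)) with hL
  have hlog2 : Real.log (((k : ℝ) + 1) ^ 2) = 2 * Real.log ((k : ℝ) + 1) := by
    rw [Real.log_pow]; push_cast; ring
  have hL0 : 0 ≤ L := by
    apply Real.log_nonneg
    rw [hlog2]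
    have h1 : Real.log k ≤ Real.log ((k : ℝ) + 1) := Real.log_le_log hk0 (by linarith)
    have h2 : (1 : ℝ) ≤ Real.exp 1 := Real.one_le_exp (by norm_num)
    linarith
  have hLz : b * L / k ≤ 4 * b * (Real.log ((k : ℝ) + 1) / ((k : ℝ) + 1)) := by
    have h1 : L ≤ 2 * Real.log ((k : ℝ) + 1) := by
      have := Real.log_le_sub_one_of_pos (show 0 < Real.log (((k : ℝ) + 1) ^ 2) by rw [hlog2]; positivity)
      rw [hlog2] at this
      rw [hL, hlog2]
      linarith
    have h2 : b * L / k ≤ b * (2 * Real.log ((k : ℝ) + 1)) / k :=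
      div_le_div_of_nonneg_right (mul_le_mul_of_nonneg_left h1 hb0) hk0.le
    refine h2.trans ?_
    rw [mul_div_assoc', div_le_div_iff₀ hk0 (by linarith)]
    have h3 : 0 ≤ b * Real.log ((k : ℝ) + 1) := mul_nonneg hb0 hk1'.le
    nlinarith
  have hx0 : 0 ≤ b * L / k := by positivity
  have hx1 : b * L / k ≤ 1 / 3 := hLz.trans (hk1.le.trans (min_le_left _ _))
  have hx2 : b * L / k ≤ 1 - 2 * b := hLz.trans (hk1.le.trans (min_le_right _ _))
  set x : ℝ := b * L / k with hx
  have hfac : ∀ i ∈ Finset.range (2 * k), 1 - x ≤ 1 - min 1 (max 0 (b * LL (k ^ 2 + i))) := by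
    intro i hi
    rw [Finset.mem_range] at hi
    have hn1 : (k : ℝ) ^ 2 ≤ ((k ^ 2 + i : ℕ) : ℝ) := by
      push_cast
      have : (0 : ℝ) ≤ i := Nat.cast_nonneg i
      linarith
    have hn2 : ((k ^ 2 + i : ℕ) : ℝ) ≤ ((k : ℝ) + 1) ^ 2 := by
      push_cast
      have : (i : ℝ) ≤ 2 * k := by exact_mod_cast hi.le
      nlinarith
    have hn0 : (0 : ℝ) < ((k ^ 2 + i : ℕ) : ℝ) := lt_of_lt_of_le (by positivity) hn1
    have hkn : (k : ℝ) ≤ ((k ^ 2 + i : ℕ) : ℝ) := by nlinarith
    have hln : 0 < Real.log ((k ^ 2 + i : ℕ) : ℝ) :=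
      hlogk0.trans_le (Real.log_le_log hk0 hkn)
    have hlln : 0 ≤ Real.log (Real.log ((k ^ 2 + i : ℕ) : ℝ)) := by
      have := Real.log_le_log hlogk0 (Real.log_le_log hk0 hkn)
      linarith
    have h1 : Real.log (Real.log ((k ^ 2 + i : ℕ) : ℝ)) ≤ L :=
      Real.log_le_log hln (Real.log_le_log hn0 hn2)
    have h2 : (k : ℝ) ≤ √((k ^ 2 + i : ℕ) : ℝ) := Real.le_sqrt_of_sq_le hn1
    have h3 : LL (k ^ 2 + i) ≤ L / k := by
      unfold LL
      exact div_le_div₀ hL0 h1 hk0 h2
    have h4 : b * LL (k ^ 2 + i) ≤ x := by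
      rw [hx, mul_div_assoc]
      exact mul_le_mul_of_nonneg_left h3 hb0
    have h5 : min 1 (max 0 (b * LL (k ^ 2 + i))) ≤ x := (min_le_right _ _).trans (max_le hx0 h4)
    linarith
  have hwt : 1 / (2 * Real.log ((k : ℝ) + 1)) ≤ wt b k := by
    have h1 : (1 - x) ^ (2 * k) ≤ wt b k := by
      unfold wt
      have := Finset.prod_le_prod (s := Finset.range (2 * k)) (f := fun _ => 1 - x)
        (fun i _ => by linarith) hfac
      simpa using this
    have h2 : Real.exp (-(x * (1 + x))) ^ (2 * k) ≤ (1 - x) ^ (2 * k) :=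
      pow_le_pow_left₀ (Real.exp_pos _).le (exp_le hx0 hx1) _
    have h3 : Real.exp (-L) ≤ Real.exp (-(x * (1 + x))) ^ (2 * k) := by
      rw [← Real.exp_nat_mul]
      apply Real.exp_le_exp.2
      have h4 : ((2 * k : ℕ) : ℝ) * -(x * (1 + x)) = -(L * (2 * b * (1 + x))) := by
        push_cast
        rw [hx]
        field_simp
      rw [h4, neg_le_neg_iff]
      have h5 : 2 * b * (1 + x) ≤ 1 := by nlinarith
      calc L * (2 * b * (1 + x)) ≤ L * 1 := mul_le_mul_of_nonneg_left h5 hL0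
        _ = L := mul_one L
    have h4 : Real.exp (-L) = 1 / (2 * Real.log ((k : ℝ) + 1)) := by
      rw [Real.exp_neg, hL, Real.exp_log (by rw [hlog2]; positivity), hlog2, one_div]
    rw [← h4]
    exact h3.trans (h2.trans h1)
  have hmain : 1 / (2 * Real.log ((k : ℝ) + 1)) * (a ^ 2 / k) ≤
      wt b k * (min 1 (max 0 (a * LL k))) ^ 2 :=
    mul_le_mul hwt hsec (by positivity) (hw0 k)
  rw [Real.norm_of_nonneg (by positivity)]
  calc 1 / ((k : ℝ) * Real.log ((k : ℝ) + 1))
      = 2 / a ^ 2 * (1 / (2 * Real.log ((k : ℝ) + 1)) * (a ^ 2 / k)) := by field_simp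
    _ ≤ 2 / a ^ 2 * (wt b k * (min 1 (max 0 (a * LL k))) ^ 2) :=
        mul_le_mul_of_nonneg_left hmain (by positivity)

end Pool.Agent.N618.BR

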